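import Mathlib

/-!
Project G, job G-COORD, part 1: étale coordinates from a basis of the differentials.
-/

set_option autoImplicit false

namespace Pool.Agent.Y215.G

open KaehlerDifferential Algebra

section
universe u v w
variable (R : Type u) (S : Type v) (T : Type w) [CommRing R] [CommRing S] [CommRing T]
variable [Algebra R S] [Algebra R T] [Algebra S T] [IsScalarTower R S T]

/-- If `T` is formally smooth over `R` and the differentials of `T/R` are pulled back from those of
`S/R`, then `T` is formally étale over `S`. -/
theorem formallyEtale_of_bijective [FormallySmooth R T]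
    (h : Function.Bijective (mapBaseChange R S T)) : FormallyEtale S T := by
  constructor
  · refine ⟨fun x y => ?_⟩
    have key : ∀ x : Ω[T⁄S], x = 0 := by
      intro x
      obtain ⟨y, rfl⟩ := KaehlerDifferential.map_surjective R S T x
      obtain ⟨z, rfl⟩ := h.2 y
      exact (KaehlerDifferential.exact_mapBaseChange_map R S T _).2 ⟨z, rfl⟩
    rw [key x, key y]
  · refine ⟨fun x y => ?_⟩
    have key : ∀ x : H1Cotangent S T, x = 0 := by
      intro x
      have h1 : mapBaseChange R S T (H1Cotangent.δ R S T x) = 0 :=
        (H1Cotangent.exact_δ_mapBaseChange R S T _).2 ⟨x, rfl⟩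
      have h2 : H1Cotangent.δ R S T x = 0 := h.1 (by rw [h1, map_zero])
      obtain ⟨y, rfl⟩ := (H1Cotangent.exact_map_δ R S T x).1 h2
      have : Subsingleton (H1Cotangent R T) := FormallySmooth.subsingleton_h1Cotangent
      rw [Subsingleton.elim y 0, map_zero]
    rw [key x, key y]

end

/-- A basis `D (v i)` of the differentials of a smooth algebra gives étale coordinates. -/
theorem etale_of_basis {R T : Type} [CommRing R] [CommRing T] [Algebra R T] {κ : Type} [Finite κ]
    [FormallySmooth R T] [FinitePresentation R T] (b : Module.Basis κ T (Ω[T⁄R])) (v : κ → T)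
    (hb : ∀ i, b i = D R T (v i)) :
    (MvPolynomial.aeval v : MvPolynomial κ R →ₐ[R] T).toRingHom.Etale := by
  classical
  let φ : MvPolynomial κ R →ₐ[R] T := MvPolynomial.aeval v
  let _ : Algebra (MvPolynomial κ R) T := φ.toRingHom.toAlgebra
  have : IsScalarTower R (MvPolynomial κ R) T :=
    IsScalarTower.of_algebraMap_eq' (φ.comp_algebraMap.symm)
  have hbij : Function.Bijective (mapBaseChange R (MvPolynomial κ R) T) := by
    let b' : Module.Basis κ T (TensorProduct (MvPolynomial κ R) T (Ω[MvPolynomial κ R⁄R])) :=
      (mvPolynomialBasis R κ).baseChange T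
    have h1 : ∀ i, mapBaseChange R (MvPolynomial κ R) T (b' i) = b i := by
      intro i
      simp only [b', Module.Basis.baseChange_apply, mapBaseChange_tmul, one_smul,
        mvPolynomialBasis_apply, map_D, hb]
      congr 1
      exact MvPolynomial.aeval_X v i
    have h2 : mapBaseChange R (MvPolynomial κ R) T =
        (b'.equiv b (Equiv.refl κ)).toLinearMap := by
      apply b'.ext
      intro i
      rw [h1]
      simp
    rw [h2]
    exact (b'.equiv b (Equiv.refl κ)).bijective
  have hfe : FormallyEtale (MvPolynomial κ R) T :=
    formallyEtale_of_bijective R (MvPolynomial κ R) T hbij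
  have hfp : FinitePresentation (MvPolynomial κ R) T :=
    .of_restrict_scalars_finitePresentation R (MvPolynomial κ R) T
  exact { formallyEtale := hfe, finitePresentation := hfp : Algebra.Etale (MvPolynomial κ R) T }

end Pool.Agent.Y215.G
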