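import Pool.Agent.Y223.G.Stm2
import Pool.Agent.Y215.G.CoordA

/-!
Project G, job G-COORD: étale coordinates in the algebra itself.
-/

set_option autoImplicit false

namespace Pool.Agent.Y215.G

open KaehlerDifferential Algebra IsLocalRing Pool.Agent.Y223.G

/-- The uniqueness property of étale coordinates. -/
theorem unq {O K : Type} [CommRing O] [Field K] [Algebra O K] (A : Subalgebra O K) (q : Ideal A)
    {r : ℕ} (u : Fin r → A) (hE : EtAt A q u) : UNQ A q u := by
  intro B _ _ _ f h hO hu hm hq
  obtain ⟨g, hg, hψ⟩ := hE
  set T := Localization.Away g with hT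
  let ψ : MvPolynomial (Fin r) O →+* T := (algebraMap A T).comp
     (MvPolynomial.aeval u : MvPolynomial (Fin r) O →ₐ[O] A).toRingHom
  have hfg : IsUnit (f g) := hq g hg
  have hhg : IsUnit (h g) := by
    by_contra hcon
    have h1 : h g ∈ maximalIdeal B := (mem_maximalIdeal _).2 hcon
    have h2 : f g ∈ maximalIdeal B := by
      have := (maximalIdeal B).add_mem (hm g) h1
      simpa using this
    exact (mem_maximalIdeal _).1 h2 hfg
  let F : T →+* B := IsLocalization.Away.lift g hfg
  let H : T →+* B := IsLocalization.Away.lift g hhg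
  have hF : ∀ a, F (algebraMap A T a) = f a := fun a => IsLocalization.Away.lift_eq g hfg a
  have hH : ∀ a, H (algebraMap A T a) = h a := fun a => IsLocalization.Away.lift_eq g hhg a
  have hcomp : F.comp ψ = H.comp ψ := by
    apply MvPolynomial.ringHom_ext
    · intro o
      simp only [ψ, RingHom.comp_apply, hF, hH]
      change f (MvPolynomial.aeval u (MvPolynomial.C o)) = h (MvPolynomial.aeval u (MvPolynomial.C o))
      rw [MvPolynomial.aeval_C]
      exact hO o
    · intro j
      simp only [ψ, RingHom.comp_apply, hF, hH]
      change f (MvPolynomial.aeval u (MvPolynomial.X j)) = h (MvPolynomial.aeval u (MvPolynomial.X j))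
      rw [MvPolynomial.aeval_X]
      exact hu j
  have hres : (Ideal.Quotient.mk (maximalIdeal B)).comp F =
      (Ideal.Quotient.mk (maximalIdeal B)).comp H := by
    apply IsLocalization.ringHom_ext (Submonoid.powers g)
    ext a
    simp only [RingHom.comp_apply, hF, hH]
    exact Ideal.Quotient.eq.2 (hm a)
  let a1 : Algebra (MvPolynomial (Fin r) O) T := ψ.toAlgebra
  let a2 : Algebra (MvPolynomial (Fin r) O) B := (F.comp ψ).toAlgebra
  have hψ' : Algebra.Etale (MvPolynomial (Fin r) O) T := hψ
  let F' : T →ₐ[MvPolynomial (Fin r) O] B := { F with commutes' := fun x => rfl }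
  let H' : T →ₐ[MvPolynomial (Fin r) O] B :=
    { H with commutes' := fun x => (RingHom.congr_fun hcomp x).symm }
  have hFH : F' = H' := by
    refine FormallyUnramified.ext_of_iInf (I := maximalIdeal B)
      (Ideal.iInf_pow_eq_bot_of_isLocalRing _ (Ideal.IsPrime.ne_top')) fun x => ?_
    exact RingHom.congr_fun hres x
  ext a
  have h1 : F' (algebraMap A T a) = H' (algebraMap A T a) := by rw [hFH]
  have h2 : F (algebraMap A T a) = H (algebraMap A T a) := h1
  rwa [hF, hH] at h2

set_option backward.isDefEq.respectTransparency.types false in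
theorem exists_basis_away (R A S : Type) [CommRing R] [CommRing A] [CommRing S] [Algebra R A]
    [Algebra A S] [Algebra R S] [IsScalarTower R A S] (M : Submonoid A) [IsLocalization M S]
    [Smooth R S] (p : Ideal S) [p.IsPrime] :
    ∃ (κ : Type) (_ : Finite κ) (a : κ → A) (g : S), g ∉ p ∧
      ∃ b : Module.Basis κ (Localization.Away g) (Ω[Localization.Away g⁄R]),
        ∀ i, b i = D R _ (algebraMap S (Localization.Away g) (algebraMap A S (a i))) := by
  classical
  have hloc : IsLocalization.AtPrime (Localization.AtPrime p) (p.comap (algebraMap A S)) :=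
    IsLocalization.isLocalization_isLocalization_atPrime_isLocalization M
      (Localization.AtPrime p) p
  -- the differentials of the elements of `A` generate
  obtain ⟨κ, a, b, hb⟩ := Module.exists_basis_of_span_of_flat _
    (span_range_map_derivation_of_isLocalization R A (Localization.AtPrime p)
      (p.comap (algebraMap A S)).primeCompl)
  let e : (κ →₀ S) →ₗ[S] Ω[S⁄R] :=
    Finsupp.linearCombination S fun i : κ ↦ D R S (algebraMap A S (a i))
  let l₁ : (κ →₀ S) →ₗ[S] (κ →₀ Localization.AtPrime p) :=
    Finsupp.mapRange.linearMap (Algebra.linearMap S (Localization.AtPrime p))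
  let l₂ : Ω[S⁄R] →ₗ[S] Ω[Localization.AtPrime p⁄R] := map R R S (Localization.AtPrime p)
  let eₚ : (κ →₀ Localization.AtPrime p) →ₗ[Localization.AtPrime p] Ω[Localization.AtPrime p⁄R] :=
    IsLocalizedModule.mapExtendScalars p.primeCompl l₁ l₂ (Localization.AtPrime p) e
  have : eₚ = b.repr.symm := by
    ext i
    trans IsLocalizedModule.map p.primeCompl l₁ l₂ e <| l₁ <| Finsupp.single i 1
    · simp [eₚ, -IsLocalizedModule.map_apply, l₁]
    · simp [l₂, e, hb, ← IsScalarTower.algebraMap_apply]
  have heₚ : Function.Bijective eₚ := this ▸ b.repr.symm.bijective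
  have : Finite κ := Module.Finite.finite_basis b
  obtain ⟨g, hg, h⟩ := Module.FinitePresentation.exists_notMem_bijective e p l₁ l₂ heₚ
  let l₁ₜ : (κ →₀ S) →ₗ[S] (κ →₀ Localization.Away g) :=
    Finsupp.mapRange.linearMap (Algebra.linearMap S _)
  let l₂ₜ : Ω[S⁄R] →ₗ[S] Ω[Localization.Away g⁄R] :=
    map R R S (Localization.Away g)
  rw [← IsLocalizedModule.map_bijective_iff_localizedModuleMap_bijective l₁ₜ l₂ₜ] at h
  let eₜ' : (κ →₀ Localization.Away g) →ₗ[Localization.Away g] Ω[Localization.Away g⁄R] :=
    IsLocalizedModule.mapExtendScalars (Submonoid.powers g) l₁ₜ l₂ₜ (Localization.Away g) e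
  refine ⟨κ, this, a, g, hg, .ofRepr (LinearEquiv.ofBijective eₜ' h).symm, ?_⟩
  intro i
  simp +zetaDelta [IsLocalizedModule.map_linearCombination]

/-- Transport of étale coordinates to a localization of the algebra. -/
theorem etale_transport (R A : Type) [CommRing R] [CommRing A] [Algebra R A] (T T' : Type)
    [CommRing T] [CommRing T'] [Algebra A T] [Algebra A T'] [Algebra R T]
    [IsScalarTower R A T] (E : T ≃ₐ[A] T') {κ : Type} (r : ℕ) (er : κ ≃ Fin r) (a : κ → A)
    (h : (MvPolynomial.aeval (fun i => algebraMap A T (a i)) :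
      MvPolynomial κ R →ₐ[R] T).toRingHom.Etale) :
    ((algebraMap A T').comp (MvPolynomial.aeval (fun j => a (er.symm j)) :
      MvPolynomial (Fin r) R →ₐ[R] A).toRingHom).Etale := by
  have h1 : ((algebraMap A T').comp
        (MvPolynomial.aeval (fun j => a (er.symm j)) :
          MvPolynomial (Fin r) R →ₐ[R] A).toRingHom) =
        (E.toRingEquiv.toRingHom.comp
          (MvPolynomial.aeval (fun i => algebraMap A T (a i)) :
            MvPolynomial κ R →ₐ[R] T).toRingHom).comp
          (MvPolynomial.renameEquiv R er.symm).toRingEquiv.toRingHom := by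
    apply MvPolynomial.ringHom_ext
    · intro o
      have h2 : (MvPolynomial.renameEquiv R er.symm) (MvPolynomial.C o) = MvPolynomial.C o := by
        simp
      change algebraMap A T' (MvPolynomial.aeval (fun j => a (er.symm j)) (MvPolynomial.C o)) =
        E (MvPolynomial.aeval (fun i => algebraMap A T (a i))
          ((MvPolynomial.renameEquiv R er.symm) (MvPolynomial.C o)))
      rw [h2, MvPolynomial.aeval_C, MvPolynomial.aeval_C, IsScalarTower.algebraMap_apply R A T,
        E.commutes]
    · intro j
      have h2 : (MvPolynomial.renameEquiv R er.symm) (MvPolynomial.X j) =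
          MvPolynomial.X (er.symm j) := by
        simp
      change algebraMap A T' (MvPolynomial.aeval (fun j => a (er.symm j)) (MvPolynomial.X j)) =
        E (MvPolynomial.aeval (fun i => algebraMap A T (a i))
          ((MvPolynomial.renameEquiv R er.symm) (MvPolynomial.X j)))
      rw [h2, MvPolynomial.aeval_X, MvPolynomial.aeval_X, E.commutes]
  rw [h1]
  exact RingHom.Etale.respectsIso.2 _ (MvPolynomial.renameEquiv R er.symm).toRingEquiv
    (RingHom.Etale.respectsIso.1 _ E.toRingEquiv h)

/-- Étale coordinates from elements of the algebra itself. -/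
theorem exists_coord (R A : Type) [CommRing R] [CommRing A] [Algebra R A] [FinitePresentation R A]
    (q : Ideal A) [q.IsPrime] (hq : IsSmoothAt R q) :
    ∃ (r : ℕ) (u : Fin r → A) (g : A), g ∉ q ∧
      (((algebraMap A (Localization.Away g)).comp
        (MvPolynomial.aeval u : MvPolynomial (Fin r) R →ₐ[R] A).toRingHom)).Etale := by
  obtain ⟨g₀, hg₀, hsm⟩ := IsSmoothAt.exists_notMem_smooth R q
  have hdisj : Disjoint (Submonoid.powers g₀ : Set A) (q : Set A) := by
    rwa [Ideal.disjoint_powers_iff_notMem_of_isPrime]
  have hpp : (q.map (algebraMap A (Localization.Away g₀))).IsPrime :=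
    IsLocalization.isPrime_of_isPrime_disjoint (.powers g₀) _ _ ‹_› hdisj
  obtain ⟨κ, hκ, a, g, hg, b, hb⟩ := exists_basis_away R A (Localization.Away g₀)
    (.powers g₀) (q.map (algebraMap A (Localization.Away g₀)))
  have hfs : FormallySmooth R (Localization.Away g) := by
    have h1 : FormallySmooth R (Localization.Away g₀) := hsm.1
    exact FormallySmooth.comp R (Localization.Away g₀) _
  have hfp : FinitePresentation R (Localization.Away g) := by
    have h1 : FinitePresentation R (Localization.Away g₀) := hsm.2
    exact FinitePresentation.trans R (Localization.Away g₀) _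
  have hfin := etale_of_basis b _ hb
  obtain ⟨r, ⟨er⟩⟩ := Finite.exists_equiv_fin κ
  have hloc2 : IsLocalization.Away (g₀ * (IsLocalization.Away.sec g₀ g).1) (Localization.Away g) :=
    .mul_of_associated _ _ g <| IsLocalization.Away.associated_sec_fst g₀ g
  let E : Localization.Away (g₀ * (IsLocalization.Away.sec g₀ g).1) ≃ₐ[A] Localization.Away g :=
    Localization.algEquiv _ _
  refine ⟨r, fun j => a (er.symm j), g₀ * (IsLocalization.Away.sec g₀ g).1, ?_, ?_⟩
  · refine Ideal.IsPrime.mul_notMem ‹_› hg₀ fun hmem ↦ hg ?_
    rw [Ideal.mem_iff_of_associated (IsLocalization.Away.associated_sec_fst g₀ g).symm]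
    exact Ideal.mem_map_of_mem (algebraMap A (Localization.Away g₀)) hmem
  · refine etale_transport R A (Localization.Away g) _ E.symm r er a ?_
    have h3 : (fun i => algebraMap A (Localization.Away g) (a i)) =
        (fun i => algebraMap (Localization.Away g₀) (Localization.Away g)
          (algebraMap A (Localization.Away g₀) (a i))) := by
      funext i
      exact IsScalarTower.algebraMap_apply A (Localization.Away g₀) (Localization.Away g) (a i)
    rw [h3]
    exact hfin

/-- Étale coordinates of a smooth algebra at a point. -/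
theorem t_COORD : S_COORD := by
  intro O K _ _ _ _ A hft q _ hq
  have hfp : FinitePresentation O A := FinitePresentation.of_finiteType.1 hft
  obtain ⟨r, u, g, hg, hE⟩ := exists_coord O A q hq
  have hE' : EtAt A q u := ⟨g, hg, hE⟩
  exact ⟨r, u, hE', unq A q u hE'⟩

end Pool.Agent.Y215.G
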