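import Mathlib
import Pool.Agent.W418.LU2.Ind
import Pool.Agent.H920R2.Sr1

/-!
Project G, job G-IND, part 1: the uniformizer is not in the square of the maximal ideal.
-/

set_option autoImplicit false

namespace Pool.Agent.Y215.G

open IsLocalRing TensorProduct

/-- If `B → A` is a surjection of noetherian local rings with kernel in `m_B²`, and `A` is regular,
then `dim B ≤ dim A`. -/
theorem dim_le_of_ker {B A : Type} [CommRing B] [IsLocalRing B] [IsNoetherianRing B] [CommRing A]
    [IsRegularLocalRing A] (θ : B →+* A) (hθ : Function.Surjective θ)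
    (hk : ∀ x, θ x = 0 → x ∈ maximalIdeal B ^ 2) : ringKrullDim B ≤ ringKrullDim A := by
  classical
  have hreg := (isRegularLocalRing_iff A).1 ‹_›
  have hfg := (maximalIdeal A).fg_of_isNoetherianRing
  have hfin := Submodule.FG.finite_generators hfg
  have hloc : IsLocalHom θ := by
    refine ⟨fun a ha => ?_⟩
    by_contra h
    have h1 : a ∈ maximalIdeal B := (mem_maximalIdeal _).2 h
    exact (mem_maximalIdeal _).1 (Pool.Agent.W418.LU2.mem_max_of_surj θ hθ h1) ha
  choose l hl using hθ
  set G : Set B := l '' (maximalIdeal A).generators with hG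
  have hGfin : G.Finite := hfin.image l
  have hle : maximalIdeal B ≤ Ideal.span G := by
    apply Submodule.le_of_le_smul_of_le_jacobson_bot (I := maximalIdeal B)
      (maximalIdeal B).fg_of_isNoetherianRing
    · rw [IsLocalRing.jacobson_eq_maximalIdeal]
      exact bot_ne_top
    · intro x hx
      have h1 : θ x ∈ maximalIdeal A := by
        rw [mem_maximalIdeal, mem_nonunits_iff]
        intro hu
        exact (mem_maximalIdeal _).1 hx (isUnit_of_map_unit θ x hu)
      have h2 : θ x ∈ Ideal.map θ (Ideal.span G) := by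
        rw [Ideal.map_span, hG, ← Set.image_comp]
        have h3 : (θ ∘ l) '' (maximalIdeal A).generators = (maximalIdeal A).generators := by
          have : (θ ∘ l) = id := by funext a; exact hl a
          rw [this, Set.image_id]
        rw [h3]
        have h4 : Ideal.span (maximalIdeal A).generators = maximalIdeal A :=
          Submodule.span_generators _
        rw [h4]
        exact h1
      rw [Ideal.mem_map_iff_of_surjective θ (fun a => ⟨l a, hl a⟩)] at h2
      obtain ⟨y, hy, hxy⟩ := h2
      have h5 : x - y ∈ maximalIdeal B ^ 2 := hk _ (by rw [map_sub, hxy, sub_self])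
      have h6 : x = y + (x - y) := by ring
      rw [h6]
      refine Submodule.add_mem_sup hy ?_
      rw [smul_eq_mul, ← sq]
      exact h5
  have hge : Ideal.span G ≤ maximalIdeal B := by
    rw [Ideal.span_le]
    rintro _ ⟨a, ha, rfl⟩
    by_contra hcon
    have h1 : IsUnit (l a) := by
      by_contra h
      exact hcon ((mem_maximalIdeal _).2 h)
    have h2 := h1.map θ
    rw [hl] at h2
    have h3 : a ∈ maximalIdeal A := by
      have h4 : Ideal.span (maximalIdeal A).generators = maximalIdeal A :=
        Submodule.span_generators _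
      rw [← h4]
      exact Ideal.subset_span ha
    exact (mem_maximalIdeal _).1 h3 h2
  have heq : maximalIdeal B = Ideal.span G := le_antisymm hle hge
  refine (ringKrullDim_le_spanFinrank_maximalIdeal B).trans ?_
  rw [← hreg]
  have h1 : (maximalIdeal B).spanFinrank ≤ (maximalIdeal A).spanFinrank := by
    rw [heq, ← Submodule.FG.generators_ncard hfg]
    refine (Submodule.spanFinrank_span_le_ncard_of_finite hGfin).trans ?_
    exact Set.ncard_image_le hfin
  exact_mod_cast h1

/-- In a Dedekind domain, an element of `𝔓` outside of `𝔓²` generates `𝔓` locally. -/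
theorem dedekind_local {O : Type} [CommRing O] [IsDedekindDomain O] (𝔓 : Ideal O) (π : O) (hπ : π ∈ 𝔓) (hπ2 : π ∉ 𝔓 ^ 2) :
    ∃ s, s ∉ 𝔓 ∧ ∀ e ∈ 𝔓, ∃ o, s * e = π * o := by
  have h1 : 𝔓 ∣ Ideal.span {π} := by
    rw [Ideal.dvd_span_singleton]
    exact hπ
  obtain ⟨J, hJ⟩ := h1
  have h2 : ¬ J ≤ 𝔓 := by
    intro h3
    apply hπ2
    have h4 : 𝔓 * J ≤ 𝔓 ^ 2 := by
      rw [sq]
      exact Ideal.mul_mono_right h3
    apply h4
    rw [← hJ]
    exact Ideal.mem_span_singleton_self π
  obtain ⟨s, hs, hs2⟩ := Set.not_subset.1 h2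
  refine ⟨s, hs2, fun e he => ?_⟩
  have h5 : s * e ∈ Ideal.span {π} := by
    rw [hJ, mul_comm s e]
    exact Ideal.mul_mem_mul he hs
  obtain ⟨o, ho⟩ := Ideal.mem_span_singleton'.1 h5
  exact ⟨o, by rw [← ho]; ring⟩

/-- The uniformizer of the base stays outside of the square of the maximal ideal of a local ring of
a smooth algebra. -/
theorem pi_notMem {O T : Type} [CommRing O] [IsDedekindDomain O] [CommRing T]
    [Algebra O T] [Algebra.Smooth O T] [Module.Flat O T] [IsNoetherianRing T] (Q : Ideal T)
    [Q.IsPrime] (𝔓 : Ideal O) (h𝔓 : 𝔓.IsMaximal) (π : O) (hπ : π ∈ 𝔓)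
    (hπ2 : π ∉ 𝔓 ^ 2) (hQ : Q.comap (algebraMap O T) = 𝔓) :
    algebraMap T (Localization.AtPrime Q) (algebraMap O T π) ∉
      maximalIdeal (Localization.AtPrime Q) ^ 2 := by
  classical
  intro hmem
  let _ : Field (O ⧸ 𝔓) := Ideal.Quotient.field 𝔓
  let A := (O ⧸ 𝔓) ⊗[O] T
  have hsm : Algebra.Smooth (O ⧸ 𝔓) A := inferInstance
  let θ : T →+* A := (Algebra.TensorProduct.includeRight : T →ₐ[O] A).toRingHom
  have hθ1 : ∀ t, θ t = (1 : O ⧸ 𝔓) ⊗ₜ[O] t := fun t => rfl
  have hθs : Function.Surjective θ := by
    intro x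
    induction x using TensorProduct.induction_on with
    | zero => exact ⟨0, map_zero _⟩
    | tmul a t =>
      obtain ⟨o, rfl⟩ := Ideal.Quotient.mk_surjective a
      refine ⟨o • t, ?_⟩
      rw [hθ1, TensorProduct.tmul_smul, TensorProduct.smul_tmul', Algebra.smul_def, mul_one]
      rfl
    | add x y hx hy =>
      obtain ⟨a, rfl⟩ := hx
      obtain ⟨b, rfl⟩ := hy
      exact ⟨a + b, map_add _ _ _⟩
  have hθk : ∀ t, θ t = 0 → t ∈ 𝔓.map (algebraMap O T) := by
    intro t ht
    have h1 := congrArg (TensorProduct.quotTensorEquivQuotSMul T 𝔓) ht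
    rw [hθ1, map_zero, ← map_one (Ideal.Quotient.mk 𝔓),
      TensorProduct.quotTensorEquivQuotSMul_mk_tmul, one_smul, Submodule.Quotient.mk_eq_zero] at h1
    rw [Ideal.smul_top_eq_map] at h1
    exact h1
  have hle : RingHom.ker θ ≤ Q := by
    intro t ht
    have h1 := hθk t ht
    have h2 : 𝔓.map (algebraMap O T) ≤ Q := by
      rw [Ideal.map_le_iff_le_comap, hQ]
    exact h2 h1
  have hqp : (Q.map θ).IsPrime := Ideal.map_isPrime_of_surjective hθs hle
  have hcomap : (Q.map θ).comap θ = Q := by
    rw [Ideal.comap_map_of_surjective' θ hθs]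
    exact sup_eq_left.2 hle
  have hreg : IsRegularLocalRing (Localization.AtPrime (Q.map θ)) :=
    Pool.Agent.H920R2.regular_of_smooth (k := O ⧸ 𝔓) (Q.map θ)
  have hcomp : Q = (Q.map θ).comap θ := hcomap.symm
  let Θ : Localization.AtPrime Q →+* Localization.AtPrime (Q.map θ) :=
    Localization.localRingHom Q (Q.map θ) θ hcomp
  have hΘ : ∀ t, Θ (algebraMap T _ t) = algebraMap A _ (θ t) := fun t =>
    Localization.localRingHom_to_map _ _ _ _ t
  have hΘs : Function.Surjective Θ := by
    intro y
    obtain ⟨a, s, rfl⟩ := IsLocalization.exists_mk'_eq (Q.map θ).primeCompl y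
    obtain ⟨a', rfl⟩ := hθs a
    obtain ⟨s', hs'⟩ := hθs s
    have hs'' : s' ∉ Q := by
      intro h
      apply s.2
      rw [← hs']
      exact Ideal.mem_map_of_mem θ h
    refine ⟨IsLocalization.mk' _ a' (⟨s', hs''⟩ : Q.primeCompl), ?_⟩
    rw [IsLocalization.eq_mk'_iff_mul_eq, ← hs', ← hΘ, ← hΘ, ← map_mul]
    congr 1
    exact IsLocalization.mk'_spec _ a' (⟨s', hs''⟩ : Q.primeCompl)
  have hnoeth : IsNoetherianRing (Localization.AtPrime Q) :=
    IsLocalization.isNoetherianRing Q.primeCompl _ inferInstance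
  -- the image of `𝔓` is in the ideal generated by `π`
  obtain ⟨s, hs, hsπ⟩ := dedekind_local 𝔓 π hπ hπ2
  have hsu : IsUnit (algebraMap T (Localization.AtPrime Q) (algebraMap O T s)) := by
    apply IsLocalization.map_units _ (⟨algebraMap O T s, ?_⟩ : Q.primeCompl)
    intro h
    apply hs
    rw [← hQ]
    exact h
  have hPm : ∀ t ∈ 𝔓.map (algebraMap O T), algebraMap T (Localization.AtPrime Q) t ∈
      Ideal.span {algebraMap T (Localization.AtPrime Q) (algebraMap O T π)} := by
    intro t ht
    have h1 : 𝔓.map (algebraMap O T) ≤ (Ideal.span {algebraMap T (Localization.AtPrime Q)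
        (algebraMap O T π)}).comap (algebraMap T (Localization.AtPrime Q)) := by
      rw [Ideal.map_le_iff_le_comap]
      intro e he
      rw [Ideal.mem_comap, Ideal.mem_comap]
      obtain ⟨o, ho⟩ := hsπ e he
      have h2 : algebraMap T (Localization.AtPrime Q) (algebraMap O T s) *
          algebraMap T (Localization.AtPrime Q) (algebraMap O T e) ∈
          Ideal.span {algebraMap T (Localization.AtPrime Q) (algebraMap O T π)} := by
        rw [← map_mul, ← map_mul, ho, map_mul, map_mul]
        exact Ideal.mul_mem_right _ _ (Ideal.mem_span_singleton_self _)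
      exact (Ideal.unit_mul_mem_iff_mem _ hsu).1 h2
    exact h1 ht
  have hker : ∀ x, Θ x = 0 → x ∈
      Ideal.span {algebraMap T (Localization.AtPrime Q) (algebraMap O T π)} := by
    intro x hx
    obtain ⟨a, s, rfl⟩ := IsLocalization.exists_mk'_eq Q.primeCompl x
    have h1 : Θ (algebraMap T _ a) = 0 := by
      rw [← IsLocalization.mk'_spec (Localization.AtPrime Q) a s, map_mul, hx, zero_mul]
    rw [hΘ, IsLocalization.map_eq_zero_iff (Q.map θ).primeCompl] at h1
    obtain ⟨m, hm⟩ := h1
    obtain ⟨m', hm'⟩ := hθs m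
    have hm'' : m' ∉ Q := by
      intro h
      apply m.2
      rw [← hm']
      exact Ideal.mem_map_of_mem θ h
    have h2 : m' * a ∈ 𝔓.map (algebraMap O T) := hθk _ (by rw [map_mul, hm']; exact hm)
    have h3 := hPm _ h2
    rw [map_mul] at h3
    have h4 : IsUnit (algebraMap T (Localization.AtPrime Q) m') :=
      IsLocalization.map_units _ (⟨m', hm''⟩ : Q.primeCompl)
    have h5 := (Ideal.unit_mul_mem_iff_mem _ h4).1 h3
    have h6 : IsUnit (algebraMap T (Localization.AtPrime Q) s) := IsLocalization.map_units _ s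
    have h7 : algebraMap T (Localization.AtPrime Q) s * IsLocalization.mk' _ a s ∈
        Ideal.span {algebraMap T (Localization.AtPrime Q) (algebraMap O T π)} := by
      rw [mul_comm, IsLocalization.mk'_spec]
      exact h5
    exact (Ideal.unit_mul_mem_iff_mem _ h6).1 h7
  have hspan : Ideal.span {algebraMap T (Localization.AtPrime Q) (algebraMap O T π)} ≤
      maximalIdeal (Localization.AtPrime Q) ^ 2 := by
    rw [Ideal.span_singleton_le_iff_mem]
    exact hmem
  have hk2 : ∀ x, Θ x = 0 → x ∈ maximalIdeal (Localization.AtPrime Q) ^ 2 :=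
    fun x hx => hspan (hker x hx)
  have hdim1 : ringKrullDim (Localization.AtPrime Q) ≤
      ringKrullDim (Localization.AtPrime (Q.map θ)) :=
    @dim_le_of_ker (Localization.AtPrime Q) (Localization.AtPrime (Q.map θ)) _ _ hnoeth _ hreg Θ
      hΘs hk2
  -- `π` is not a zero divisor
  have hπ0 : π ≠ 0 := by
    intro h
    apply hπ2
    rw [h]
    exact Ideal.zero_mem _
  have hflat : Module.Flat O (Localization.AtPrime Q) := Module.Flat.trans O T _
  have hnz : algebraMap T (Localization.AtPrime Q) (algebraMap O T π) ∈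
      nonZeroDivisors (Localization.AtPrime Q) := by
    rw [← IsScalarTower.algebraMap_apply O T (Localization.AtPrime Q)]
    have h2 : IsSMulRegular O π := fun x y hxy => by
      simpa [hπ0] using hxy
    have h1 : IsSMulRegular (Localization.AtPrime Q) (algebraMap O (Localization.AtPrime Q) π) :=
      h2.of_flat
    rw [mem_nonZeroDivisors_iff_right]
    intro x hx
    apply h1
    change algebraMap O (Localization.AtPrime Q) π * x = algebraMap O (Localization.AtPrime Q) π * 0
    rw [mul_zero, mul_comm]
    exact hx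
  have hdim2 := ringKrullDim_quotient_succ_le_of_nonZeroDivisor hnz
  have hdim3 : ringKrullDim (Localization.AtPrime (Q.map θ)) ≤ ringKrullDim (Localization.AtPrime Q ⧸
      Ideal.span {algebraMap T (Localization.AtPrime Q) (algebraMap O T π)}) := by
    have hz : ∀ a ∈ Ideal.span {algebraMap T (Localization.AtPrime Q) (algebraMap O T π)},
        Θ a = 0 := by
      intro a ha
      obtain ⟨b, rfl⟩ := Ideal.mem_span_singleton'.1 ha
      rw [map_mul, hΘ]
      have : θ (algebraMap O T π) = 0 := by
        rw [hθ1, Algebra.algebraMap_eq_smul_one, TensorProduct.tmul_smul,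
          TensorProduct.smul_tmul', Algebra.smul_def, mul_one]
        have h2 : algebraMap O (O ⧸ 𝔓) π = 0 := Ideal.Quotient.eq_zero_iff_mem.2 hπ
        rw [h2, TensorProduct.zero_tmul]
      rw [this, map_zero, mul_zero]
    apply ringKrullDim_le_of_surjective (Ideal.Quotient.lift _ Θ hz)
    exact Ideal.Quotient.lift_surjective_of_surjective _ hz hΘs
  have hfin : ringKrullDim (Localization.AtPrime Q) ≠ ⊤ := by
    exact ringKrullDim_ne_top
  have hbot : ringKrullDim (Localization.AtPrime Q) ≠ ⊥ := ringKrullDim_ne_bot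
  have hfinal : ringKrullDim (Localization.AtPrime Q) + 1 ≤ ringKrullDim (Localization.AtPrime Q) :=
    (add_le_add_left (hdim1.trans hdim3) 1).trans hdim2
  generalize ringKrullDim (Localization.AtPrime Q) = d at hfin hbot hfinal
  induction d with
  | bot => exact hbot rfl
  | coe d =>
    induction d with
    | top => exact hfin rfl
    | coe n =>
      have h1 : n + 1 ≤ n := by exact_mod_cast hfinal
      omega

end Pool.Agent.Y215.G
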