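import Pool.Agent.Y223.G.Stm2
import Pool.Agent.Y215.G.IndA

/-!
Project G, job G-IND: regular parameters from étale coordinates.
-/

set_option autoImplicit false

namespace Pool.Agent.Y215.G

open IsLocalRing KaehlerDifferential Algebra Pool.Agent.Y223.G Pool.Agent.W418.LU2

/-- Derivations dual to étale coordinates. -/
theorem exists_der {O B ι : Type} [CommRing O] [CommRing B] [Algebra O B]
    [Algebra (MvPolynomial ι O) B] [IsScalarTower O (MvPolynomial ι O) B]
    [FormallyEtale (MvPolynomial ι O) B] [DecidableEq ι] (i : ι) :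
    ∃ D : Derivation O B B, ∀ j, D (algebraMap (MvPolynomial ι O) B (MvPolynomial.X j)) =
      if j = i then 1 else 0 := by
  let e := tensorKaehlerEquivOfFormallyEtale O (MvPolynomial ι O) B
  let b := ((mvPolynomialBasis O ι).baseChange B).map e
  refine ⟨(b.coord i).compDer (KaehlerDifferential.D O B), fun j => ?_⟩
  have h1 : b j = KaehlerDifferential.D O B (algebraMap (MvPolynomial ι O) B (MvPolynomial.X j)) := by
    simp only [b, e, Module.Basis.map_apply, Module.Basis.baseChange_apply,
      mvPolynomialBasis_apply, tensorKaehlerEquivOfFormallyEtale_apply, mapBaseChange_tmul,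
      one_smul, map_D]
  change b.coord i (KaehlerDifferential.D O B _) = _
  rw [← h1, Module.Basis.coord_apply, Module.Basis.repr_self, Finsupp.single_apply]

theorem ind_of_equiv {B B' : Type} [CommRing B] [IsLocalRing B] [CommRing B'] [IsLocalRing B']
    (e : B ≃+* B') {ι : Type} [Fintype ι] (z : ι → B) (h : Ind (fun i => e (z i))) : Ind z := by
  have h1 : ∀ x, e x ∈ maximalIdeal B' → x ∈ maximalIdeal B := by
    intro x hx
    have := mem_max_of_surj (e.symm : B' →+* B) e.symm.surjective hx
    simpa using this
  refine ⟨fun i => h1 _ (h.1 i), fun c hc i => h1 _ (h.2 (fun i => e (c i)) ?_ i)⟩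
  have h2 : ∑ i, e (c i) * e (z i) = e (∑ i, c i * z i) := by
    rw [map_sum]
    simp only [map_mul]
  rw [h2]
  have h3 : Ideal.map (e : B →+* B') (maximalIdeal B ^ 2) ≤ maximalIdeal B' ^ 2 := by
    rw [Ideal.map_pow]
    apply Ideal.pow_right_mono
    rw [Ideal.map_le_iff_le_comap]
    intro x hx
    exact mem_max_of_surj (e : B →+* B') e.surjective hx
  exact h3 (Ideal.mem_map_of_mem (e : B →+* B') hc)

/-- Derivations send the square of the maximal ideal into the maximal ideal. -/
theorem der_sq {O B : Type} [CommRing O] [CommRing B] [Algebra O B] [IsLocalRing B]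
    (D : Derivation O B B) (x : B) (hx : x ∈ maximalIdeal B ^ 2) : D x ∈ maximalIdeal B := by
  rw [sq] at hx
  induction hx using Submodule.mul_induction_on' with
  | mem_mul_mem a ha b hb =>
    rw [D.leibniz]
    exact (maximalIdeal B).add_mem ((maximalIdeal B).mul_mem_right _ ha)
      ((maximalIdeal B).mul_mem_right _ hb)
  | add a _ b _ ha hb =>
    rw [map_add]
    exact (maximalIdeal B).add_mem ha hb

theorem ind_core {O T : Type} [CommRing O] [IsDedekindDomain O] [CommRing T] [Algebra O T]
    {ι κ : Type} [Finite ι] [Fintype κ] (v : ι → T)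
    (hE : (MvPolynomial.aeval v : MvPolynomial ι O →ₐ[O] T).toRingHom.Etale) (Q : Ideal T)
    [Q.IsPrime] (𝔓 : Ideal O) (h𝔓 : 𝔓.IsMaximal) (π : O) (hπ : π ∈ 𝔓)
    (hπ2 : π ∉ 𝔓 ^ 2) (hQ : Q.comap (algebraMap O T) = 𝔓) (f : κ → ι)
    (hf : Function.Injective f) (hv : ∀ k, v (f k) ∈ Q) :
    Ind (fun i : Option κ => algebraMap T (Localization.AtPrime Q)
      (i.elim (algebraMap O T π) fun k => v (f k))) := by
  classical
  let φ : MvPolynomial ι O →ₐ[O] T := MvPolynomial.aeval v
  let _ : Algebra (MvPolynomial ι O) T := φ.toRingHom.toAlgebra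
  have htow : IsScalarTower O (MvPolynomial ι O) T :=
    IsScalarTower.of_algebraMap_eq' (φ.comp_algebraMap.symm)
  have hE' : Algebra.Etale (MvPolynomial ι O) T := hE
  have hsm : Algebra.Smooth O T := by
    have h1 : Algebra.Smooth (MvPolynomial ι O) T := inferInstance
    have h2 : Algebra.Smooth O (MvPolynomial ι O) :=
      { formallySmooth := inferInstance, finitePresentation := inferInstance }
    exact Algebra.Smooth.comp O (MvPolynomial ι O) T
  have hflat : Module.Flat O T := by
    have h1 : Module.Flat (MvPolynomial ι O) T := inferInstance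
    exact Module.Flat.trans O (MvPolynomial ι O) T
  have hnoeth : IsNoetherianRing T := Algebra.FiniteType.isNoetherianRing (MvPolynomial ι O) T
  have hpi := pi_notMem Q 𝔓 h𝔓 π hπ hπ2 hQ
  set B := Localization.AtPrime Q with hB
  have htow2 : IsScalarTower O (MvPolynomial ι O) B := by
    refine IsScalarTower.of_algebraMap_eq fun o => ?_
    rw [IsScalarTower.algebraMap_apply O T B, IsScalarTower.algebraMap_apply (MvPolynomial ι O) T B,
      ← IsScalarTower.algebraMap_apply O (MvPolynomial ι O) T]
  have hfe : FormallyEtale (MvPolynomial ι O) B := by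
    have h1 : FormallyEtale T B := FormallyEtale.of_isLocalization Q.primeCompl
    exact FormallyEtale.comp (MvPolynomial ι O) T B
  choose D hD using fun i : ι => exists_der (O := O) (B := B) i
  have hX : ∀ j, algebraMap (MvPolynomial ι O) B (MvPolynomial.X j) = algebraMap T B (v j) := by
    intro j
    rw [IsScalarTower.algebraMap_apply (MvPolynomial ι O) T B]
    congr 1
    exact MvPolynomial.aeval_X v j
  simp only [hX] at hD
  have hmem : ∀ t, t ∈ Q → algebraMap T B t ∈ maximalIdeal B := by
    intro t ht
    exact (IsLocalization.AtPrime.to_map_mem_maximal_iff B Q t).2 ht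
  have hπQ : algebraMap T B (algebraMap O T π) ∈ maximalIdeal B := by
    apply hmem
    have : π ∈ Q.comap (algebraMap O T) := by rw [hQ]; exact hπ
    exact this
  refine ⟨?_, ?_⟩
  · rintro (_ | k)
    · exact hπQ
    · exact hmem _ (hv k)
  · intro c hc
    rw [Fintype.sum_option] at hc
    simp only [Option.elim_none, Option.elim_some] at hc
    have hk : ∀ k, c (some k) ∈ maximalIdeal B := by
      intro k
      have h1 := der_sq (D (f k)) _ hc
      have hDπ : D (f k) (algebraMap T B (algebraMap O T π)) = 0 := by
        rw [← IsScalarTower.algebraMap_apply O T B, Derivation.map_algebraMap]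
      rw [map_add, Derivation.leibniz, hDπ, smul_zero, zero_add, map_sum] at h1
      have h2 : ∀ k', D (f k) (c (some k') * algebraMap T B (v (f k'))) =
          (if k' = k then c (some k') else 0) +
            algebraMap T B (v (f k')) * D (f k) (c (some k')) := by
        intro k'
        rw [Derivation.leibniz, hD]
        by_cases h3 : k' = k
        · rw [if_pos (by rw [h3]), if_pos h3, smul_eq_mul, mul_one, smul_eq_mul]
        · rw [if_neg (fun h4 => h3 (hf h4)), if_neg h3, smul_zero, smul_eq_mul]
      rw [Finset.sum_congr rfl fun k' _ => h2 k', Finset.sum_add_distrib,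
        Finset.sum_ite_eq' Finset.univ k, if_pos (Finset.mem_univ k)] at h1
      have h5 : algebraMap T B (algebraMap O T π) • D (f k) (c none) ∈ maximalIdeal B :=
        (maximalIdeal B).mul_mem_right _ hπQ
      have h6 : ∑ k', algebraMap T B (v (f k')) * D (f k) (c (some k')) ∈ maximalIdeal B :=
        Ideal.sum_mem _ fun k' _ => (maximalIdeal B).mul_mem_right _ (hmem _ (hv k'))
      have h7 : c (some k) = (algebraMap T B (algebraMap O T π) • D (f k) (c none) +
          (c (some k) + ∑ k', algebraMap T B (v (f k')) * D (f k) (c (some k')))) -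
          algebraMap T B (algebraMap O T π) • D (f k) (c none) -
          ∑ k', algebraMap T B (v (f k')) * D (f k) (c (some k')) := by ring
      rw [h7]
      exact (maximalIdeal B).sub_mem ((maximalIdeal B).sub_mem h1 h5) h6
    rintro (_ | k)
    · by_contra hcon
      have hu : IsUnit (c none) := by
        by_contra h
        exact hcon ((mem_maximalIdeal _).2 h)
      have h1 : ∑ k, c (some k) * algebraMap T B (v (f k)) ∈ maximalIdeal B ^ 2 := by
        rw [sq]
        exact Ideal.sum_mem _ fun k _ => Ideal.mul_mem_mul (hk k) (hmem _ (hv k))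
      have h2 : c none * algebraMap T B (algebraMap O T π) ∈ maximalIdeal B ^ 2 := by
        have h3 : c none * algebraMap T B (algebraMap O T π) =
            (c none * algebraMap T B (algebraMap O T π) +
              ∑ k, c (some k) * algebraMap T B (v (f k))) -
              ∑ k, c (some k) * algebraMap T B (v (f k)) := by ring
        rw [h3]
        exact (maximalIdeal B ^ 2).sub_mem hc h1
      exact hpi ((Ideal.unit_mul_mem_iff_mem _ hu).1 h2)
    · exact hk k

/-- Regular parameters from étale coordinates. -/
theorem t_IND : S_IND := by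
  intro O K _ _ _ _ _ C hft hreg Q _ p r hp w hE 𝔓 h𝔓 hne π hπ hπ2 hQ hw
  obtain ⟨g, hg, hE⟩ := hE
  set T := Localization.Away g with hT
  have hdisj : Disjoint (Submonoid.powers g : Set C) (Q : Set C) := by
    rwa [Ideal.disjoint_powers_iff_notMem_of_isPrime]
  have hpp : (Q.map (algebraMap C T)).IsPrime :=
    IsLocalization.isPrime_of_isPrime_disjoint (.powers g) _ _ ‹_› hdisj
  have hcomap : (Q.map (algebraMap C T)).comap (algebraMap C T) = Q :=
    IsLocalization.under_map_of_isPrime_disjoint (.powers g) T ‹_› hdisj
  have hcomp : (MvPolynomial.aeval (fun aj : Fin p × Fin r => algebraMap C T (w aj.1 aj.2)) :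
      MvPolynomial (Fin p × Fin r) O →ₐ[O] T).toRingHom = (algebraMap C T).comp
      (MvPolynomial.aeval (fun aj : Fin p × Fin r => w aj.1 aj.2) :
        MvPolynomial (Fin p × Fin r) O →ₐ[O] C).toRingHom := by
    apply MvPolynomial.ringHom_ext
    · intro o
      change MvPolynomial.aeval _ (MvPolynomial.C o) =
        algebraMap C T (MvPolynomial.aeval _ (MvPolynomial.C o))
      rw [MvPolynomial.aeval_C, MvPolynomial.aeval_C, ← IsScalarTower.algebraMap_apply O C T]
    · intro j
      change MvPolynomial.aeval _ (MvPolynomial.X j) =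
        algebraMap C T (MvPolynomial.aeval _ (MvPolynomial.X j))
      rw [MvPolynomial.aeval_X, MvPolynomial.aeval_X]
  rw [← hcomp] at hE
  have hQT : (Q.map (algebraMap C T)).comap (algebraMap O T) = 𝔓 := by
    rw [IsScalarTower.algebraMap_eq O C T, ← Ideal.comap_comap, hcomap, hQ]
  have hlt : ∀ a : Fin (p - 1), (a : ℕ) + 1 < p := fun a => by omega
  have key := ind_core (fun aj : Fin p × Fin r => algebraMap C T (w aj.1 aj.2)) hE
    (Q.map (algebraMap C T)) 𝔓 h𝔓 π hπ hπ2 hQT
    (fun ja : Fin r × Fin (p - 1) => ((⟨ja.2 + 1, hlt ja.2⟩ : Fin p), ja.1))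
    (by
      rintro ⟨j, a⟩ ⟨j', a'⟩ h
      simp only [Prod.mk.injEq, Fin.mk.injEq] at h
      obtain ⟨h1, h2⟩ := h
      have : a = a' := Fin.ext (by omega)
      rw [this, h2])
    (fun ja => Ideal.mem_map_of_mem _ (hw _ _ (Nat.succ_pos _) (hlt ja.2)))
  have hloc := IsLocalization.isLocalization_isLocalization_atPrime_isLocalization (.powers g)
    (Localization.AtPrime (Q.map (algebraMap C T))) (Q.map (algebraMap C T))
  simp only [hcomap] at hloc
  let e : Localization.AtPrime Q ≃ₐ[C] Localization.AtPrime (Q.map (algebraMap C T)) :=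
    IsLocalization.algEquiv Q.primeCompl _ _
  apply ind_of_equiv e.toRingEquiv
  have hfun : (fun i : WI r p => e.toRingEquiv (algebraMap C (Localization.AtPrime Q)
      (i.elim (algebraMap O C π) fun ja => w (ja.2 + 1) ja.1))) =
      (fun i : WI r p => algebraMap T (Localization.AtPrime (Q.map (algebraMap C T)))
        (i.elim (algebraMap O T π) fun ja => algebraMap C T (w (ja.2 + 1) ja.1))) := by
    funext i
    have h1 : ∀ c : C, e.toRingEquiv (algebraMap C (Localization.AtPrime Q) c) =
        algebraMap T (Localization.AtPrime (Q.map (algebraMap C T))) (algebraMap C T c) := by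
      intro c
      change e (algebraMap C (Localization.AtPrime Q) c) = _
      rw [e.commutes, IsScalarTower.algebraMap_apply C T]
    rw [h1]
    congr 1
    rcases i with _ | i
    · simp only [Option.elim_none]
      rw [← IsScalarTower.algebraMap_apply O C T]
    · rfl
  rw [hfun]
  exact key

end Pool.Agent.Y215.G
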